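import Pool.Agent.Lib.MP_b2ebfc_lc.H35.Tools

/-!
# Module TIME1: the time of approach I
-/

set_option autoImplicit false

namespace Pool.Agent.Lib.MP_b2ebfc_lc.H16

open Finset Pool.Agent.Lib.MP_b2ebfc_lc Pool.Agent.Lib.MP_b2ebfc_lc.H35

/-- Number of subsets weighted by `f` of the cardinality. -/
theorem sum_card (a : ℕ) (f : ℕ → ℕ) :
    ∑ Z : Finset (Fin a), f Z.card = ∑ r ∈ range (a + 1), a.choose r * f r := by
  have h := Finset.sum_powerset_apply_card f (x := (univ : Finset (Fin a)))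
  simpa using h

theorem sum_mask (hM : MaskStatement) (a : ℕ) (f : ℕ → ℕ) :
    ∑ Z ∈ range (2 ^ a), f (maskSet a Z).card = ∑ r ∈ range (a + 1), a.choose r * f r := by
  have h := (hM a).1 (fun Z => (f Z.card : ℤ))
  rw [← sum_card]
  exact_mod_cast h

/-- The bound for the small loops. -/
def bB (n : ℕ) : ℕ := (n + 1) ^ 2

theorem regs_le {n a b : ℕ} {M : Fin a → Fin b → ℤ} {s : St} (h : Ctx n a b M s) :
    ∀ j ∈ [3, 4, 13, 15], s.r j ≤ bB n := by
  have hab := h.hab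
  have hb1 := h.hb1
  have ha : (a : ℤ) ≤ n := by exact_mod_cast (by omega : a ≤ n)
  have hb : (b : ℤ) ≤ n := by exact_mod_cast (by omega : b ≤ n)
  have hb0 : (0 : ℤ) ≤ b := by positivity
  have hn0 : (0 : ℤ) ≤ n := by positivity
  have e : ((bB n : ℕ) : ℤ) = ((n : ℤ) + 1) ^ 2 := by unfold bB; push_cast; ring
  intro j hj
  simp only [List.mem_cons, List.not_mem_nil, or_false] at hj
  rw [e]
  rcases hj with rfl | rfl | rfl | rfl
  · rw [h.ha]; nlinarith
  · rw [h.hb]; nlinarith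
  · rw [h.h13]; nlinarith
  · rw [h.h15]; nlinarith

/-- The body of the outer loop. -/
def bd : Prog := seqs [.set 22 popE,
    .ite (.reg 22) (.add (.reg 6) (.const 1))
      (seqs [.set 19 (.arr 5 (.reg 22)), .loop 21 (.reg 19) body1]) .skip]

theorem popE_val {n a b : ℕ} {M : Fin a → Fin b → ℤ} {s : St} (h : Ctx n a b M s) (Z : ℕ)
    (h20 : s.r 20 = Z) : popE.eval s = (maskSet a Z).card := by
  have hP2 : ∀ h : Fin a, s.m 4 ((h : ℕ) : ℤ) = 2 ^ (h : ℕ) := fun k =>
    h.hP2 k (by have := k.2; have := h.hab; omega)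
  simp only [popE, Expr.eval, bitE, St.setR_r, St.setR_m]
  norm_num only [if_true, if_false, h.ha, h20]
  simp only [Int.toNat_natCast, Finset.sum_range, hP2]
  exact card_maskSet Z

theorem loop_time {n a b : ℕ} {M : Fin a → Fin b → ℤ} {s : St} (w : ℕ) (h : Ctx n a b M s)
    (L : List ℕ) (hL : L = [3, 4, 13, 15]) (p : Prog) (hp : p.ok L = true) (x : ℕ) (hx : x ∉ L)
    (N : ℕ) :
    ∑ k ∈ range N, (p.time w ((iter (p.run w) x s k).setR x k) + 1) ≤ N * (p.tb (bB n) + 1) := by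
  calc ∑ k ∈ range N, (p.time w ((iter (p.run w) x s k).setR x k) + 1)
      ≤ ∑ _k ∈ range N, (p.tb (bB n) + 1) := by
        refine Finset.sum_le_sum fun k _ => Nat.add_le_add_right
          (Prog.time_le w L _ p hp _ fun j hj => ?_) 1
        have hjx : j ≠ x := by rintro rfl; exact hx hj
        rw [St.setR_r, if_neg hjx,
          iter_r (fun s => Prog.run_r w p j (Prog.ok_wrR L p hp j hj) s) hjx]
        exact regs_le h j (hL ▸ hj)
    _ = N * (p.tb (bB n) + 1) := by simp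

theorem bd_time {w n a b u₀ : ℕ} {M : Fin a → Fin b → ℤ} {s : St} (hw : w = wordLen n)
    (h : Ctx n a b M s) (h6 : s.r 6 = u₀) (Z : ℕ) (h20 : s.r 20 = Z) :
    bd.time w s + 1 ≤ (popE.tb (bB n) + body1.tb (bB n) + 40) *
      (1 + if (maskSet a Z).card < u₀ + 1 then 3 ^ (maskSet a Z).card else 0) := by
  have hpc : popE.cost s ≤ popE.tb (bB n) :=
    Expr.cost_le [3, 4, 13, 15] (bB n) popE rfl s (regs_le h)
  have hcn : (maskSet a Z).card ≤ n := by
    refine (Finset.card_le_univ _).trans ?_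
    have := h.hab
    simp only [Fintype.card_fin]; omega
  obtain ⟨s1, hs1⟩ : ∃ t, t = (Prog.set 22 popE).run w s := ⟨_, rfl⟩
  have hs1' : s1 = s.setR 22 (popE.eval s % 2 ^ w) := hs1
  have h22 : s1.r 22 = (maskSet a Z).card := by
    rw [hs1']
    simp only [St.setR_r, if_true]
    rw [popE_val h Z h20, hw]
    refine word_mod (n := n) _ (by positivity) ?_
    have h1 : ((maskSet a Z).card : ℤ) ≤ n := by exact_mod_cast hcn
    nlinarith [(by positivity : (0 : ℤ) ≤ (maskSet a Z).card), sq_nonneg ((n : ℤ))]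
  have h16 : s1.r 6 = u₀ := by rw [hs1']; simp [h6]
  have c1 : Ctx n a b M s1 := by
    refine ctx_run h (fun j hj => ?_) (fun j hj => by rw [hs1']; rfl)
    rw [hs1', St.setR_r, if_neg]
    rintro rfl
    revert hj; decide
  have e1 : bd.time w s = (popE.cost s + 1) + ((1 + (1 + 1 + 1) +
      (if s1.r 22 < s1.r 6 + 1 then
        (seqs [.set 19 (.arr 5 (.reg 22)), .loop 21 (.reg 19) body1]).time w s1 else 1) + 1) +
        1 + 1) + 1 := by
    rw [hs1]; rfl
  have hcond : (s1.r 22 < s1.r 6 + 1) ↔ (maskSet a Z).card < u₀ + 1 := by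
    rw [h22, h16]; norm_cast
  rw [e1]
  simp only [hcond]
  split_ifs with hc
  · obtain ⟨s2, hs2⟩ : ∃ t, t = (Prog.set 19 (.arr 5 (.reg 22))).run w s1 := ⟨_, rfl⟩
    have hs2' : s2 = s1.setR 19 (s1.m 5 (s1.r 22) % 2 ^ w) := hs2
    have h19 : s2.r 19 = ((3 ^ (maskSet a Z).card : ℕ) : ℤ) := by
      rw [hs2']
      simp only [St.setR_r, if_true]
      rw [h22, c1.hP3 _ hcn, hw, pow3_mod _ hcn]
      push_cast; rfl
    have c2 : Ctx n a b M s2 := by
      refine ctx_run c1 (fun j hj => ?_) (fun j hj => by rw [hs2']; rfl)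
      rw [hs2', St.setR_r, if_neg]
      rintro rfl
      revert hj; decide
    have e2 : (seqs [.set 19 (.arr 5 (.reg 22)), .loop 21 (.reg 19) body1]).time w s1 =
        (1 + 1 + 1) + ((1 + ∑ k ∈ range (s2.r 19).toNat,
          (body1.time w ((iter (body1.run w) 21 s2 k).setR 21 k) + 1) + 1) + 1 + 1) + 1 := by
      rw [hs2]; rfl
    rw [e2, h19, Int.toNat_natCast]
    have h3 := loop_time w c2 [3, 4, 13, 15] rfl body1 rfl 21 (by decide)
      (3 ^ (maskSet a Z).card)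
    have h4 : 1 ≤ 3 ^ (maskSet a Z).card := Nat.one_le_pow _ _ (by norm_num)
    obtain ⟨X, hX⟩ : ∃ X, X = 3 ^ (maskSet a Z).card := ⟨_, rfl⟩
    rw [← hX] at h3 h4 ⊢
    nlinarith
  · simp only [add_zero, mul_one]
    omega

theorem time1 (hM : MaskStatement) : Time1Statement := by
  obtain ⟨D, hD⟩ : ∃ D, D = popE.dg + body1.dg := ⟨_, rfl⟩
  obtain ⟨S, hS⟩ : ∃ S, S = popE.sz + body1.sz + 42 := ⟨_, rfl⟩
  refine ⟨S * 2 ^ D, 2 * D, fun w n a b u₀ M s hw h h6 hu => ?_⟩
  obtain ⟨K, hK⟩ : ∃ K, K = popE.tb (bB n) + body1.tb (bB n) + 40 := ⟨_, rfl⟩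
  have e0 : app1P.time w s = 1 + (∑ k ∈ range (s.r 10).toNat,
      (bd.time w ((iter (bd.run w) 20 s k).setR 20 k) + 1)) + 1 := rfl
  have h10 : (s.r 10).toNat = 2 ^ a := by
    rw [h.h10]
    have : ((2 : ℤ) ^ a) = ((2 ^ a : ℕ) : ℤ) := by push_cast; rfl
    rw [this, Int.toNat_natCast]
  have e1 : ∑ k ∈ range (2 ^ a), (bd.time w ((iter (bd.run w) 20 s k).setR 20 k) + 1) ≤
      ∑ k ∈ range (2 ^ a), K * (1 + if (maskSet a k).card < u₀ + 1 then
        3 ^ (maskSet a k).card else 0) := by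
    refine Finset.sum_le_sum fun k _ => ?_
    rw [hK]
    refine bd_time hw (ctx_run h (fun j hj => ?_) (fun j hj => ?_)) ?_ k ?_
    · have h1 : bd.wrR j = false := by
        simp only [List.mem_cons, List.not_mem_nil, or_false] at hj
        rcases hj with rfl | rfl | rfl | rfl | rfl | rfl | rfl | rfl <;> rfl
      have h2 : j ≠ 20 := by rintro rfl; revert hj; decide
      rw [St.setR_r, if_neg h2, iter_r (fun s => Prog.run_r w bd j h1 s) h2]
    · have h1 : bd.wrA j = false := by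
        simp only [List.mem_cons, List.not_mem_nil, or_false] at hj
        rcases hj with rfl | rfl | rfl <;> rfl
      rw [St.setR_m, iter_m (fun s => Prog.run_m w bd j h1 s)]
    · rw [St.setR_r, if_neg (by norm_num),
        iter_r (fun s => Prog.run_r w bd 6 rfl s) (by norm_num)]
      exact h6
    · simp
  have e2 : ∑ k ∈ range (2 ^ a), K * (1 + if (maskSet a k).card < u₀ + 1 then
        3 ^ (maskSet a k).card else 0) =
      K * (2 ^ a + ∑ r ∈ range (u₀ + 1), a.choose r * 3 ^ r) := by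
    rw [← Finset.mul_sum, Finset.sum_add_distrib]
    congr 1
    rw [sum_mask hM a (fun r => if r < u₀ + 1 then 3 ^ r else 0)]
    congr 1
    · simp
    · simp only [mul_ite, mul_zero]
      rw [← Finset.sum_filter]
      refine Finset.sum_congr ?_ fun _ _ => rfl
      ext r
      simp only [Finset.mem_filter, Finset.mem_range]
      omega
  have e3 : app1P.time w s ≤ (K + 2) * (2 ^ a + ∑ r ∈ range (u₀ + 1), a.choose r * 3 ^ r) := by
    rw [e0, h10]
    rw [e2] at e1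
    have h1 : 1 ≤ 2 ^ a := Nat.one_le_pow _ _ (by norm_num)
    obtain ⟨Y, hY⟩ : ∃ Y, Y = ∑ r ∈ range (u₀ + 1), a.choose r * 3 ^ r := ⟨_, rfl⟩
    rw [← hY] at e1 ⊢
    calc _ ≤ 1 + K * (2 ^ a + Y) + 1 := by omega
      _ ≤ K * (2 ^ a + Y) + 2 * (2 ^ a + Y) := by omega
      _ = (K + 2) * (2 ^ a + Y) := by ring
  have e4 : K + 2 ≤ S * 2 ^ D * (n + 1) ^ (2 * D) := by
    have h1 := popE.tb_le (bB n)
    have h2 := body1.tb_le (bB n)
    have h3 : 1 ≤ bB n + 1 := by omega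
    have h4 : (bB n + 1) ^ popE.dg ≤ (bB n + 1) ^ D := Nat.pow_le_pow_right h3 (by omega)
    have h5 : (bB n + 1) ^ body1.dg ≤ (bB n + 1) ^ D := Nat.pow_le_pow_right h3 (by omega)
    have h6 : 1 ≤ (bB n + 1) ^ D := Nat.one_le_pow _ _ h3
    have h7 : (bB n + 1) ^ D ≤ 2 ^ D * (n + 1) ^ (2 * D) := by
      rw [pow_mul, ← mul_pow]
      refine Nat.pow_le_pow_left ?_ D
      unfold bB
      have := Nat.one_le_pow 2 (n + 1) (by omega)
      omega
    calc K + 2 ≤ popE.sz * (bB n + 1) ^ D + body1.sz * (bB n + 1) ^ D + 42 * (bB n + 1) ^ D := by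
          rw [hK]
          have := h1.trans (Nat.mul_le_mul_left _ h4)
          have := h2.trans (Nat.mul_le_mul_left _ h5)
          omega
      _ = S * (bB n + 1) ^ D := by rw [hS]; ring
      _ ≤ S * (2 ^ D * (n + 1) ^ (2 * D)) := Nat.mul_le_mul_left _ h7
      _ = S * 2 ^ D * (n + 1) ^ (2 * D) := by ring
  have e5 := e3.trans (Nat.mul_le_mul_right _ e4)
  have e6 : ((app1P.time w s : ℕ) : ℝ) ≤ ((S * 2 ^ D * (n + 1) ^ (2 * D) *
      (2 ^ a + ∑ r ∈ range (u₀ + 1), a.choose r * 3 ^ r) : ℕ) : ℝ) := by exact_mod_cast e5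
  refine e6.trans (le_of_eq ?_)
  push_cast
  ring

end Pool.Agent.Lib.MP_b2ebfc_lc.H16
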